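import Mathlib

/-!
# Composite algebraic knots

Durfee and Kato (1974): for `n ≥ 3`, the isotopy classes of the simple fibred knots in the sphere
`S^(2n+1)` correspond to the congruence classes of the unimodular integral matrices (the Seifert
matrices), connected sums to block sums, and the trivial knot to the matrix of size `0`. Algebraic
knots are simple fibred (Milnor).

The irreducible plane curve singularities `f(x, y) = 0` with semigroup `⟨4, 6, 12 m + 1⟩`, `m ≥ 1`,
for instance `(y² - x³)² - 4 x⁵ y - x⁷` for `m = 1`, have the characteristic polynomial of the monodromy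
`Δ = (X - 1) (X ^ 12 - 1) (X ^ (24 m + 2) - 1) / ((X ^ 4 - 1) (X ^ 6 - 1) (X ^ (12 m + 1) - 1))`, and so has
`f(x, y) + z² + w²` in four variables (Zariski, A'Campo, Thom-Sebastiani). Here
`Δ = (X ^ 4 - X ^ 2 + 1) (1 - X + X ^ 2 - ⋯ + X ^ (12 m))`, and the two factors generate the unit
ideal of `ℤ[X]`, since `X ^ (12 m + 1) = X` modulo the first one. As they are reciprocal, the
kernels of the two factors at the monodromy are orthogonal for the Seifert form and the Seifert form is
their direct sum. So the algebraic knot of `f + z² + w²` in `S⁷` is a connected sum of two nontrivial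
knots.
-/

set_option autoImplicit false

open Polynomial Module

namespace Pool.Agent.Results.MP_60ecc5_gt.CompositeAlgebraicKnots

/-- The monodromy (in degree `n`) of the simple fibred knot in `S^(2n+1)` with Seifert matrix `A`,
where `ε = (-1) ^ (n + 1)`: the matrix `h` with `L(x, h y) = ε L(y, x)` for the Seifert form
`L(x, y) = xᵀ A y`. -/
noncomputable def monodromy (ε : ℤ) {μ : ℕ} (A : Matrix (Fin μ) (Fin μ) ℤ) :
    Matrix (Fin μ) (Fin μ) ℤ :=
  ε • (A⁻¹ * A.transpose)

/-- The unimodular matrix `A` is the Seifert matrix of a connected sum of two nontrivial simple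
fibred knots: after a change of basis it is the block sum of two unimodular matrices of positive
sizes. -/
def IsComposite {μ : ℕ} (A : Matrix (Fin μ) (Fin μ) ℤ) : Prop :=
  ∃ (k l : ℕ) (B : Matrix (Fin k) (Fin k) ℤ) (C : Matrix (Fin l) (Fin l) ℤ)
    (P : Matrix (Fin μ) (Fin k ⊕ Fin l) ℤ) (Q : Matrix (Fin k ⊕ Fin l) (Fin μ) ℤ),
    0 < k ∧ 0 < l ∧ IsUnit B.det ∧ IsUnit C.det ∧ P * Q = 1 ∧ Q * P = 1 ∧
      P.transpose * A * P = Matrix.fromBlocks B 0 0 C

/-- Reciprocal polynomials. -/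
def Palindromic (P : ℤ[X]) : Prop := ∀ k ≤ P.natDegree, P.coeff (P.natDegree - k) = P.coeff k

section

variable {μ : ℕ} (A : Matrix (Fin μ) (Fin μ) ℤ)

/-- the Seifert form -/
def form (x y : Fin μ → ℤ) : ℤ := x ⬝ᵥ A.mulVec y

theorem form_smul_left (a : ℤ) (x y : Fin μ → ℤ) : form A (a • x) y = a * form A x y := by
  unfold form
  rw [smul_dotProduct, smul_eq_mul]

theorem form_smul_right (a : ℤ) (x y : Fin μ → ℤ) : form A x (a • y) = a * form A x y := by
  unfold form
  rw [Matrix.mulVec_smul, dotProduct_smul, smul_eq_mul]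

theorem form_sum_left {ι : Type} (s : Finset ι) (f : ι → Fin μ → ℤ) (y : Fin μ → ℤ) :
    form A (∑ i ∈ s, f i) y = ∑ i ∈ s, form A (f i) y := by
  unfold form
  rw [sum_dotProduct]

theorem form_sum_right {ι : Type} (s : Finset ι) (f : ι → Fin μ → ℤ) (x : Fin μ → ℤ) :
    form A x (∑ i ∈ s, f i) = ∑ i ∈ s, form A x (f i) := by
  unfold form
  rw [Matrix.mulVec_sum, dotProduct_sum]

theorem form_swap (x y : Fin μ → ℤ) : form A y x = x ⬝ᵥ A.transpose.mulVec y := by
  unfold form
  rw [Matrix.mulVec_transpose, dotProduct_comm x, Matrix.dotProduct_mulVec]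

variable {A}

theorem mono_right {ε : ℤ} (hA : IsUnit A.det) (x y : Fin μ → ℤ) :
    form A x ((monodromy ε A).mulVec y) = ε * form A y x := by
  rw [form_swap A x y]
  unfold form monodromy
  rw [Matrix.mulVec_mulVec, Matrix.mul_smul, ← Matrix.mul_assoc, Matrix.mul_nonsing_inv A hA,
    Matrix.one_mul, Matrix.smul_mulVec, dotProduct_smul, smul_eq_mul]

theorem mono_iso {ε : ℤ} (hε : ε * ε = 1) (hA : IsUnit A.det) (x y : Fin μ → ℤ) :
    form A ((monodromy ε A).mulVec x) ((monodromy ε A).mulVec y) = form A x y := by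
  rw [mono_right hA, mono_right hA, ← mul_assoc, hε, one_mul]

/-- the monodromy as a linear map -/
noncomputable def mono (ε : ℤ) (A : Matrix (Fin μ) (Fin μ) ℤ) : End ℤ (Fin μ → ℤ) :=
  (monodromy ε A).mulVecLin

theorem mono_pow {ε : ℤ} (hε : ε * ε = 1) (hA : IsUnit A.det) (k : ℕ) (x y : Fin μ → ℤ) :
    form A (((mono ε A) ^ k) x) (((mono ε A) ^ k) y) = form A x y := by
  induction k with
  | zero => rfl
  | succ k ih =>
    rw [pow_succ', Module.End.mul_apply, Module.End.mul_apply]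
    exact (mono_iso hε hA _ _).trans ih

/-- the adjoint of a reciprocal polynomial in the monodromy -/
theorem adjoint {ε : ℤ} (hε : ε * ε = 1) (hA : IsUnit A.det) {P : ℤ[X]} (hP : Palindromic P)
    (x y : Fin μ → ℤ) :
    form A (aeval (mono ε A) P x) (((mono ε A) ^ P.natDegree) y) =
      form A x (aeval (mono ε A) P y) := by
  rw [aeval_eq_sum_range, LinearMap.sum_apply, LinearMap.sum_apply, form_sum_left, form_sum_right,
    ← Finset.sum_range_reflect (fun i => form A x ((P.coeff i • (mono ε A) ^ i) y))]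
  refine Finset.sum_congr rfl fun k hk => ?_
  have hk' : k ≤ P.natDegree := Nat.lt_succ_iff.1 (Finset.mem_range.1 hk)
  have e1 : P.natDegree + 1 - 1 - k = P.natDegree - k := by omega
  rw [e1, hP k hk', LinearMap.smul_apply, LinearMap.smul_apply, form_smul_left, form_smul_right]
  congr 1
  have e2 : (mono ε A) ^ P.natDegree = (mono ε A) ^ k * (mono ε A) ^ (P.natDegree - k) := by
    rw [← pow_add, Nat.add_sub_cancel' hk']
  rw [e2, Module.End.mul_apply, mono_pow hε hA]

/-- orthogonality -/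
theorem ortho {ε : ℤ} (hε : ε * ε = 1) (hA : IsUnit A.det) {P Q : ℤ[X]} (hP : Palindromic P)
    (hPQ : IsCoprime P Q) {x y : Fin μ → ℤ} (hx : aeval (mono ε A) P x = 0)
    (hy : aeval (mono ε A) Q y = 0) : form A x y = 0 := by
  obtain ⟨u, v, huv⟩ := hPQ
  have h1 : y = aeval (mono ε A) P (aeval (mono ε A) u y) := by
    have h2 : aeval (mono ε A) (u * P + v * Q) y = y := by
      rw [huv, map_one]
      rfl
    rw [map_add, map_mul, map_mul, LinearMap.add_apply, Module.End.mul_apply,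
      Module.End.mul_apply, hy, map_zero, add_zero] at h2
    rw [← Module.End.mul_apply, ← map_mul, mul_comm P u, map_mul, Module.End.mul_apply]
    exact h2.symm
  rw [h1, ← adjoint hε hA hP, hx]
  simp [form]

theorem ortho' {ε : ℤ} (hε : ε * ε = 1) (hA : IsUnit A.det) {P Q : ℤ[X]} (hP : Palindromic P)
    (hPQ : IsCoprime P Q) {x y : Fin μ → ℤ} (hx : aeval (mono ε A) P x = 0)
    (hy : aeval (mono ε A) Q y = 0) : form A y x = 0 := by
  have h1 : aeval (mono ε A) Q ((monodromy ε A).mulVec y) = 0 := by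
    have h2 : (monodromy ε A).mulVec y = (mono ε A) y := rfl
    have h3 : aeval (mono ε A) Q * mono ε A = mono ε A * aeval (mono ε A) Q := by
      have h4 : aeval (mono ε A) (Q * X) = aeval (mono ε A) (X * Q) := by rw [mul_comm]
      rwa [map_mul, map_mul, aeval_X] at h4
    rw [h2, ← Module.End.mul_apply, h3, Module.End.mul_apply, hy, map_zero]
  have h4 := ortho hε hA hP hPQ hx h1
  rw [mono_right hA] at h4
  have h5 : ε ≠ 0 := by
    rintro rfl
    simp at hε
  exact (mul_eq_zero.1 h4).resolve_left h5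

theorem mono_eq (ε : ℤ) (A : Matrix (Fin μ) (Fin μ) ℤ) :
    mono ε A = Matrix.toLinAlgEquiv' (R := ℤ) (monodromy ε A) := rfl

theorem aeval_mono (ε : ℤ) (A : Matrix (Fin μ) (Fin μ) ℤ) (Q : ℤ[X]) :
    aeval (mono ε A) Q = Matrix.toLinAlgEquiv' (R := ℤ) (aeval (monodromy ε A) Q) := by
  rw [mono_eq]
  exact aeval_algHom_apply (Matrix.toLinAlgEquiv' (R := ℤ) (n := Fin μ)) (monodromy ε A) Q

/-- a polynomial which kills the monodromy vanishes at the complex roots of the characteristic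
polynomial -/
theorem root_of_kill {M : Matrix (Fin μ) (Fin μ) ℤ} {Q : ℤ[X]} (hQ : aeval M Q = 0) {z : ℂ}
    (hz : aeval z M.charpoly = 0) : aeval z Q = 0 := by
  let φ : Matrix (Fin μ) (Fin μ) ℤ →ₐ[ℤ] Matrix (Fin μ) (Fin μ) ℂ := (Algebra.ofId ℤ ℂ).mapMatrix
  have h1 : aeval (φ M) Q = 0 := by
    rw [aeval_algHom_apply, hQ, map_zero]
  have hφ : φ M = M.map (Int.castRingHom ℂ) := rfl
  let f : End ℂ (Fin μ → ℂ) := Matrix.toLinAlgEquiv' (φ M)
  have h2 : aeval f Q = 0 := by
    have h3 := aeval_algHom_apply (Matrix.toLinAlgEquiv' (R := ℂ) (n := Fin μ)) (φ M)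
      (Q.map (algebraMap ℤ ℂ))
    rw [aeval_map_algebraMap, aeval_map_algebraMap, h1, map_zero] at h3
    exact h3
  have hf : f.charpoly = M.charpoly.map (Int.castRingHom ℂ) := by
    rw [← Matrix.charpoly_map, ← hφ]
    exact Matrix.charpoly_toLin' (φ M)
  have hroot : f.charpoly.IsRoot z := by
    rw [hf, IsRoot, eval_map]
    exact hz
  obtain ⟨v, hv⟩ := ((Module.End.hasEigenvalue_iff_isRoot_charpoly f z).2 hroot).exists_hasEigenvector
  have h4 := Module.End.aeval_apply_of_hasEigenvector (p := Q.map (algebraMap ℤ ℂ)) hv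
  rw [aeval_map_algebraMap, h2, LinearMap.zero_apply] at h4
  have h5 := (smul_eq_zero.1 h4.symm).resolve_right hv.2
  rw [eval_map] at h5
  exact h5

/-- the two kernels are not zero -/
theorem ker_ne_bot {ε : ℤ} {P Q : ℤ[X]} (hPm : P.Monic) (hPd : 0 < P.natDegree)
    (hPQ : IsCoprime P Q) (hchar : (monodromy ε A).charpoly = P * Q)
    (hc : IsCompl (LinearMap.ker (aeval (mono ε A) P)) (LinearMap.ker (aeval (mono ε A) Q))) :
    LinearMap.ker (aeval (mono ε A) P) ≠ ⊥ := by
  intro hbot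
  have htop : LinearMap.ker (aeval (mono ε A) Q) = ⊤ := by
    have h := hc.sup_eq_top
    rwa [hbot, bot_sup_eq] at h
  have hQ0 : aeval (mono ε A) Q = 0 := LinearMap.ker_eq_top.1 htop
  rw [aeval_mono] at hQ0
  have hQM : aeval (monodromy ε A) Q = 0 := by
    have := (Matrix.toLinAlgEquiv' (R := ℤ) (n := Fin μ)).injective
    exact this (hQ0.trans (map_zero _).symm)
  -- a complex root of `P`
  have hmap : (P.map (Int.castRingHom ℂ)).degree ≠ 0 := by
    rw [hPm.degree_map, degree_eq_natDegree hPm.ne_zero]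
    exact_mod_cast hPd.ne'
  obtain ⟨z, hz⟩ := IsAlgClosed.exists_root _ hmap
  rw [IsRoot, eval_map] at hz
  have hz' : aeval z P = 0 := hz
  have h1 : aeval z (monodromy ε A).charpoly = 0 := by
    rw [hchar, map_mul, hz', zero_mul]
  have h2 := root_of_kill hQM h1
  obtain ⟨u, v, huv⟩ := hPQ
  have h3 := congrArg (aeval z) huv
  rw [map_add, map_mul, map_mul, hz', h2, map_one, mul_zero, mul_zero, add_zero] at h3
  exact zero_ne_one h3

/-- **Splitting of the Seifert form.** -/
theorem split {ε : ℤ} (hε : ε * ε = 1) (hA : IsUnit A.det) {P Q : ℤ[X]} (hPm : P.Monic)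
    (hQm : Q.Monic) (hPd : 0 < P.natDegree) (hQd : 0 < Q.natDegree) (hP : Palindromic P)
    (hPQ : IsCoprime P Q) (hchar : (monodromy ε A).charpoly = P * Q) : IsComposite A := by
  set H1 := LinearMap.ker (aeval (mono ε A) P) with hH1
  set H2 := LinearMap.ker (aeval (mono ε A) Q) with hH2
  have hCH : aeval (mono ε A) (P * Q) = 0 := by
    rw [aeval_mono, ← hchar, Matrix.aeval_self_charpoly, map_zero]
  have hc : IsCompl H1 H2 := by
    refine ⟨disjoint_ker_aeval_of_isCoprime _ hPQ, codisjoint_iff.2 ?_⟩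
    rw [hH1, hH2, sup_ker_aeval_eq_ker_aeval_mul_of_coprime _ hPQ, hCH, LinearMap.ker_zero]
  have hne1 : H1 ≠ ⊥ := ker_ne_bot hPm hPd hPQ hchar hc
  have hne2 : H2 ≠ ⊥ := ker_ne_bot hQm hQd hPQ.symm (by rw [hchar, mul_comm]) hc.symm
  let b1 := Module.finBasis ℤ H1
  let b2 := Module.finBasis ℤ H2
  have hk : 0 < finrank ℤ H1 := by
    have : Nontrivial H1 := Submodule.nontrivial_iff_ne_bot.2 hne1
    exact Module.finrank_pos
  have hl : 0 < finrank ℤ H2 := by
    have : Nontrivial H2 := Submodule.nontrivial_iff_ne_bot.2 hne2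
    exact Module.finrank_pos
  let b : Basis (Fin (finrank ℤ H1) ⊕ Fin (finrank ℤ H2)) ℤ (Fin μ → ℤ) :=
    (b1.prod b2).map (Submodule.prodEquivOfIsCompl H1 H2 hc)
  have hbl : ∀ i, b (Sum.inl i) = (b1 i : Fin μ → ℤ) := by
    intro i
    simp [b]
  have hbr : ∀ i, b (Sum.inr i) = (b2 i : Fin μ → ℤ) := by
    intro i
    simp [b]
  have e1 : ∀ i, aeval (mono ε A) P (b1 i : Fin μ → ℤ) = 0 := fun i => (b1 i).2
  have e2 : ∀ i, aeval (mono ε A) Q (b2 i : Fin μ → ℤ) = 0 := fun i => (b2 i).2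
  let T := (Pi.basisFun ℤ (Fin μ)).toMatrix b
  let U := b.toMatrix (Pi.basisFun ℤ (Fin μ))
  have hTU : T * U = 1 := Basis.toMatrix_mul_toMatrix_flip _ _
  have hUT : U * T = 1 := Basis.toMatrix_mul_toMatrix_flip _ _
  have hent : ∀ i j, (T.transpose * A * T) i j = form A (b i) (b j) := by
    intro i j
    rw [Matrix.mul_assoc, Matrix.mul_apply]
    show ∑ x, T.transpose i x * (A * T) x j = ∑ x, (b i) x * (A.mulVec (b j)) x
    refine Finset.sum_congr rfl fun x _ => ?_
    congr 1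
  have hblk : T.transpose * A * T = Matrix.fromBlocks
      (Matrix.of fun i j => form A (b1 i : Fin μ → ℤ) (b1 j : Fin μ → ℤ)) 0 0
      (Matrix.of fun i j => form A (b2 i : Fin μ → ℤ) (b2 j : Fin μ → ℤ)) := by
    ext i j
    rw [hent]
    rcases i with i | i <;> rcases j with j | j
    · rw [hbl, hbl]; rfl
    · rw [hbl, hbr]
      exact ortho hε hA hP hPQ (e1 i) (e2 j)
    · rw [hbr, hbl]
      exact ortho' hε hA hP hPQ (e1 j) (e2 i)
    · rw [hbr, hbr]; rfl
  have hun : IsUnit (T.transpose * A * T).det := by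
    refine Matrix.isUnit_det_of_right_inverse (B := U * A⁻¹ * U.transpose) ?_
    calc T.transpose * A * T * (U * A⁻¹ * U.transpose)
        = T.transpose * A * (T * U) * A⁻¹ * U.transpose := by simp only [Matrix.mul_assoc]
      _ = T.transpose * (A * A⁻¹) * U.transpose := by
          rw [hTU, Matrix.mul_one, Matrix.mul_assoc T.transpose]
      _ = 1 := by
          rw [Matrix.mul_nonsing_inv A hA, Matrix.mul_one, ← Matrix.transpose_mul, hUT,
            Matrix.transpose_one]
  rw [hblk, Matrix.det_fromBlocks_zero₂₁] at hun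
  exact ⟨_, _, _, _, T, U, hk, hl, isUnit_of_mul_isUnit_left hun, isUnit_of_mul_isUnit_right hun,
    hTU, hUT, hblk⟩

end

/-- the cyclotomic polynomial `Φ₁₂` -/
noncomputable def Phi : ℤ[X] := X ^ 4 - X ^ 2 + 1

theorem Phi_natDegree : Phi.natDegree = 4 := by
  unfold Phi
  compute_degree!

theorem Phi_monic : Phi.Monic := by
  unfold Phi
  monicity!

theorem Phi_palindromic : Palindromic Phi := by
  intro k hk
  rw [Phi_natDegree] at hk ⊢
  unfold Phi
  interval_cases k <;> simp [coeff_one, coeff_X_pow]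

/-- `1 - X + X ^ 2 - ⋯ + X ^ (12 m)` -/
noncomputable def Alt (m : ℕ) : ℤ[X] := ∑ i ∈ Finset.range (12 * m + 1), (-X) ^ i

theorem Alt_mul (m : ℕ) : (X + 1) * Alt m = X ^ (12 * m + 1) + 1 := by
  have h := mul_neg_geom_sum (-X : ℤ[X]) (12 * m + 1)
  have h2 : Odd (12 * m + 1) := ⟨6 * m, by ring⟩
  rw [h2.neg_pow] at h
  unfold Alt
  linear_combination h

theorem Alt_monic (m : ℕ) : (Alt m).Monic := by
  have h1 : ((X + 1 : ℤ[X])).Monic := monic_X_add_C 1
  refine h1.of_mul_monic_left ?_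
  rw [Alt_mul]
  exact monic_X_pow_add_C 1 (by omega)

theorem Alt_natDegree (m : ℕ) : (Alt m).natDegree = 12 * m := by
  have h1 : ((X + 1 : ℤ[X])).Monic := monic_X_add_C 1
  have h2 := h1.natDegree_mul (Alt_monic m)
  rw [Alt_mul] at h2
  have h3 : (X ^ (12 * m + 1) + 1 : ℤ[X]).natDegree = 12 * m + 1 :=
    natDegree_X_pow_add_C (n := 12 * m + 1) (r := 1)
  have h4 : (X + 1 : ℤ[X]).natDegree = 1 := natDegree_X_add_C 1
  rw [h3, h4] at h2
  omega

theorem X_add_one_ne : (X + 1 : ℤ[X]) ≠ 0 := (monic_X_add_C (1 : ℤ)).ne_zero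

theorem coprime (m : ℕ) : IsCoprime Phi (Alt m) := by
  obtain ⟨S, hS⟩ : (X ^ 12 - 1 : ℤ[X]) ∣ X ^ (12 * m) - 1 := by
    rw [pow_mul]
    simpa using sub_dvd_pow_sub_pow (X ^ 12 : ℤ[X]) 1 m
  have h : Alt m = 1 + X * (X ^ 5 - X ^ 4 + X ^ 3 - X ^ 2 + X - 1) * (X ^ 2 + 1) * S * Phi := by
    refine mul_left_cancel₀ X_add_one_ne ?_
    rw [Alt_mul, pow_succ]
    unfold Phi
    linear_combination X * hS
  refine ⟨-(X * (X ^ 5 - X ^ 4 + X ^ 3 - X ^ 2 + X - 1) * (X ^ 2 + 1) * S), 1, ?_⟩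
  rw [h]
  ring

/-- The algebraic knots of `f(x, y) + z² + w²`, where `f` is irreducible with semigroup
`⟨4, 6, 12 m + 1⟩`. -/
theorem branches (m : ℕ) (hm : 1 ≤ m) (μ : ℕ) (A : Matrix (Fin μ) (Fin μ) ℤ) (hA : IsUnit A.det)
    (hΔ : (X ^ 4 - 1) * (X ^ 6 - 1) * (X ^ (12 * m + 1) - 1) * (monodromy 1 A).charpoly =
      (X - 1) * (X ^ 12 - 1) * (X ^ (24 * m + 2) - 1)) : IsComposite A := by
  have hchar : (monodromy 1 A).charpoly = Phi * Alt m := by
    have hne : ((X ^ 4 - 1) * (X ^ 6 - 1) * (X ^ (12 * m + 1) - 1) : ℤ[X]) ≠ 0 :=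
      mul_ne_zero (mul_ne_zero (monic_X_pow_sub_C (1 : ℤ) (n := 4) (by omega)).ne_zero
        (monic_X_pow_sub_C (1 : ℤ) (n := 6) (by omega)).ne_zero)
        (monic_X_pow_sub_C (1 : ℤ) (n := 12 * m + 1) (by omega)).ne_zero
    refine mul_left_cancel₀ hne ?_
    rw [hΔ]
    have h1 := Alt_mul m
    have h2 : (X ^ (24 * m + 2) : ℤ[X]) = X ^ (12 * m + 1) * X ^ (12 * m + 1) := by
      rw [← pow_add]
      congr 1
      ring
    rw [h2]
    unfold Phi
    linear_combination -((X - 1) * (X ^ 12 - 1) * (X ^ (12 * m + 1) - 1)) * h1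
  exact split (by norm_num) hA Phi_monic (Alt_monic m) (by rw [Phi_natDegree]; norm_num)
    (by rw [Alt_natDegree]; omega) Phi_palindromic (coprime m) hchar

/-- **Composite algebraic knots.** (1) The general criterion: if the characteristic polynomial of
the monodromy of a unimodular matrix is the product of two monic nonconstant polynomials which
generate the unit ideal of `ℤ[X]`, one of them reciprocal, then the matrix is composite. (2) All
unimodular matrices with the characteristic polynomial of the irreducible plane curve singularities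
with semigroup `⟨4, 6, 12 m + 1⟩`, `m ≥ 1`, are composite. -/
theorem result :
    (∀ (ε : ℤ) (μ : ℕ) (A : Matrix (Fin μ) (Fin μ) ℤ) (P Q : ℤ[X]), (ε = 1 ∨ ε = -1) →
      IsUnit A.det → P.Monic → Q.Monic → 0 < P.natDegree → 0 < Q.natDegree → Palindromic P →
      IsCoprime P Q → (monodromy ε A).charpoly = P * Q → IsComposite A) ∧
    ∀ (m : ℕ), 1 ≤ m → ∀ (μ : ℕ) (A : Matrix (Fin μ) (Fin μ) ℤ), IsUnit A.det →
      (X ^ 4 - 1) * (X ^ 6 - 1) * (X ^ (12 * m + 1) - 1) * (monodromy 1 A).charpoly =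
        (X - 1) * (X ^ 12 - 1) * (X ^ (24 * m + 2) - 1) → IsComposite A :=
  ⟨fun ε μ A P Q hε hA hPm hQm hPd hQd hP hPQ hchar =>
    split (by rcases hε with rfl | rfl <;> norm_num) hA hPm hQm hPd hQd hP hPQ hchar,
    fun m hm μ A hA hΔ => branches m hm μ A hA hΔ⟩

end Pool.Agent.Results.MP_60ecc5_gt.CompositeAlgebraicKnots
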